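import Pool.Agent.H44.TILF.Tilf

set_option autoImplicit false
set_option linter.overlappingInstances false

namespace Pool.Agent.Results.MP_413515_an.ExactDifferences

open MeasureTheory Pool.Agent.H44.TILF

/-- The exact number of differences for an infinite profinite abelian group: every mean-zero
square-integrable function is a sum of `m` differences `h_j - tau(a_j) h_j` if and only if `m ≥ 3`
and `m` elements of `G` generate a dense subgroup; in that case the summands can be chosen with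
`∑ ‖h_j‖² ≤ 58 ‖f‖²`, with the same constant for all groups and all `m`. Moreover the
translation-invariant linear functionals are all continuous if and only if `G` is polythetic. -/
theorem result (G : Type*) [AddCommGroup G] [TopologicalSpace G] [IsTopologicalAddGroup G]
    [CompactSpace G] [T2Space G] [TotallyDisconnectedSpace G] [Infinite G]
    [MeasurableSpace G] [BorelSpace G] (μ : Measure G) [μ.IsAddHaarMeasure] [μ.Regular]
    [IsProbabilityMeasure μ] :
    (∀ m : ℕ, List.TFAE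
      [∀ f : Lp ℂ 2 μ, ∫ x, (f : G → ℂ) x ∂μ = 0 →
          ∃ (a : Fin m → G) (h : Fin m → Lp ℂ 2 μ),
            (f : G → ℂ) =ᵐ[μ] fun x => ∑ j, ((h j : G → ℂ) x - (h j : G → ℂ) (x - a j)),
       ∀ f : Lp ℂ 2 μ, ∫ x, (f : G → ℂ) x ∂μ = 0 →
          ∃ (a : Fin m → G) (h : Fin m → Lp ℂ 2 μ),
            ((f : G → ℂ) =ᵐ[μ] fun x => ∑ j, ((h j : G → ℂ) x - (h j : G → ℂ) (x - a j))) ∧
            ∑ j, ‖h j‖ ^ 2 ≤ 58 * ‖f‖ ^ 2,
       3 ≤ m ∧ ∃ a : Fin m → G,
          Dense ((AddSubgroup.closure (Set.range a) : AddSubgroup G) : Set G)]) ∧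
    ((∀ φ : Lp ℂ 2 μ →ₗ[ℂ] ℂ,
        (∀ (a : G) (f g : Lp ℂ 2 μ),
          ((g : G → ℂ) =ᵐ[μ] fun x => (f : G → ℂ) (x - a)) → φ g = φ f) → Continuous φ) ↔
      ∃ s : Finset G, Dense ((AddSubgroup.closure (s : Set G) : AddSubgroup G) : Set G)) := by
  have key : ∀ (m : ℕ) (a : Fin m → G) (h : Fin m → Lp ℂ 2 μ),
      ((∑ j, (h j - tau μ (a j) (h j)) : Lp ℂ 2 μ) : G → ℂ) =ᵐ[μ]
        fun x => ∑ j, ((h j : G → ℂ) x - (h j : G → ℂ) (x - a j)) := by
    intro m a h
    have h1 := coeFn_sum μ (Finset.univ : Finset (Fin m)) (fun j => h j - tau μ (a j) (h j))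
    have h2 : ∀ᵐ x ∂μ, ∀ j, (h j - tau μ (a j) (h j) : Lp ℂ 2 μ) x =
        (h j : G → ℂ) x - (h j : G → ℂ) (x - a j) := by
      rw [ae_all_iff]
      intro j
      filter_upwards [Lp.coeFn_sub (h j) (tau μ (a j) (h j)), coeFn_tau μ (a j) (h j)]
        with x e1 e2
      rw [e1, Pi.sub_apply, e2]
    filter_upwards [h1, h2] with x e1 e2
    rw [e1]
    simp only [e2]
  have keq : ∀ (m : ℕ) (a : Fin m → G) (h : Fin m → Lp ℂ 2 μ) (f : Lp ℂ 2 μ),
      (f = ∑ j, (h j - tau μ (a j) (h j))) ↔ ((f : G → ℂ) =ᵐ[μ]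
        fun x => ∑ j, ((h j : G → ℂ) x - (h j : G → ℂ) (x - a j))) := by
    intro m a h f
    constructor
    · intro hf
      have h1 := key m a h
      rw [← hf] at h1
      exact h1
    · intro hf
      apply Lp.ext
      exact hf.trans (key m a h).symm
  refine ⟨?_, ?_⟩
  · intro m
    tfae_have 1 → 3 := by
      intro h
      have hall : AllSums μ m := by
        intro f hf
        obtain ⟨a, b, hab⟩ := h f hf
        exact ⟨a, b, (keq m a b f).mpr hab⟩
      obtain ⟨a, ha⟩ := lower1 μ hall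
      refine ⟨?_, a, ha⟩
      by_contra hlt
      exact lower2 μ (by omega) ha hall
    tfae_have 3 → 2 := by
      rintro ⟨hm, a₀, ha₀⟩ f hf
      obtain ⟨a, h, h1, h2⟩ := upper μ hm ha₀ f hf
      exact ⟨a, h, (keq m a h f).mp h1, h2⟩
    tfae_have 2 → 1 := by
      intro h f hf
      obtain ⟨a, b, h1, _⟩ := h f hf
      exact ⟨a, b, h1⟩
    tfae_finish
  · constructor
    · intro h
      by_contra hcon
      push Not at hcon
      obtain ⟨φ, hφ1, hφ2⟩ := exists_discontinuous μ hcon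
      exact hφ2 (h φ hφ1)
    · rintro ⟨s, hs⟩ φ hφ
      obtain ⟨k, a, ha⟩ := fin_of_finset s hs
      obtain ⟨b, hb⟩ := extend_gen (m := max 3 k) (le_max_right _ _) ha
      have hall : AllSums μ (max 3 k) := by
        intro f hf
        obtain ⟨c, h, h1, _⟩ := upper μ (le_max_left _ _) hb f hf
        exact ⟨c, h, h1⟩
      exact tilf_continuous μ hall φ hφ

end Pool.Agent.Results.MP_413515_an.ExactDifferences
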